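import Pool.Agent.Helper60.LIM.Stbl
import Pool.Agent.Helper43.NSLB.Main

/-! [STBL] with helper43's theorem NSLB. -/

set_option autoImplicit false

namespace Pool.Agent.Helper60.LIM

open Finset Filter Topology Matrix Pool.Agent.Helper69.RK Pool.Agent.Helper31.EC Pool.Agent.Helper31.EC.Sp
open Pool.Agent.Helper40.EL Pool.Agent.Helper89.LX Pool.Agent.Helper84.MT
open Pool.Agent.Helper49.MD Pool.Agent.Helper36.AM
open Pool.Agent.Helper29.MX
open Pool.Agent.Helper47.FN (KR lftR obR)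
open Pool.Agent.Helper26.OUT (WDs)
open Pool.Agent.Helper94.SEL (tot num lmd BK Top Ctx TRNX)

noncomputable section

variable {M : ℕ}

/-- **[STBL]**: limits of rigid stable pairs with TOP (up to errors which tend to zero) are stable -/
theorem stbl (hT : TRNX M) {A : MCl (M + 1)} {C : ℕ → MCl (M + 1)} {v : ℕ} (hc : Ctx M A C v) (m g r e0 : ℕ)
    {b1 La ρ d : ℝ} (hb1 : 0 < b1) (hLa : 1 ≤ La) (hρ : 0 < ρ) (hd : 0 < d) {ε : ℕ → ℝ} (h0 : ∀ j, 0 ≤ ε j)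
    (hε : Tendsto ε atTop (𝓝 0)) :
    DiagTo (fun j => lftR fun S (s : MSys S (M + 1) (lin g) (Fin r)) R => BK (C m) v g r e0 b1 S s R ∧
        (∀ b, 0 ≤ b → b < b1 → tot s R b ≤ La * b + ε j) ∧ Top ρ d (ε j) s.Q)
      (lftR fun S (s : MSys S (M + 1) (lin g) (Fin r)) R => CvK (C m) v S g r s R ∧ (∀ i, (s.lf i).e ≤ e0) ∧
        WDs (fun _ => (g : ℝ)) s ∧ Stb 0 s R ∧ Top ρ d 0 s.Q) :=
  stbl_of (Pool.Agent.Helper43.NSLB.nslb (M + 1)) hT hc m g r e0 hb1 hLa hρ hd h0 hε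

end

end Pool.Agent.Helper60.LIM
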