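import Pool.Agent.Helper60.LIM.Def
import Pool.Agent.Helper52.MW.Def
import Pool.Agent.Helper26.OUT.Wl

/-! [DEFX]: TOP makes a rigid stable pair deficient at all levels, with a uniform deficit, on all events. -/

set_option autoImplicit false

namespace Pool.Agent.Helper60.LIM

open Finset Filter Topology Matrix Pool.Agent.Helper69.RK Pool.Agent.Helper31.EC Pool.Agent.Helper31.EC.Sp
open Pool.Agent.Helper40.EL Pool.Agent.Helper89.LX Pool.Agent.Helper84.MT
open Pool.Agent.Helper49.MD Pool.Agent.Helper36.AM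
open Pool.Agent.Helper29.MX
open Pool.Agent.Helper94.SEL (tot num lmd BK Top Ctx TRNX)
open Pool.Agent.Helper77.TPX (oth)

noncomputable section

variable {S T : Sp} {N M : ℕ} {E : ℕ → ℕ} {ι : Type}

/-- rigid stable pairs on events of extensions -/
theorem bk_im {C : MCl (M + 1)} (hC : ∀ S g r s, C S g r s → ∀ (T : Sp) (p : Pj T S) (E : ∀ k, (T.F k).Ω → Prop)
    (hE : 0 < ul (T.pr E)), C (Sp.im p E) g r (s.im p E hE)) {v g r e0 : ℕ} {b0 : ℝ}
    {s : MSys S (M + 1) (lin g) (Fin r)} {R : Rsl S} (h : BK C v g r e0 b0 S s R) (p : Pj T S)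
    (A : ∀ k, (T.F k).Ω → Prop) (hA : 0 < ul (T.pr A)) : BK C v g r e0 b0 (Sp.im p A) (s.im p A hA) R where
  cl := ⟨hC _ _ _ _ h.cl.1 T p A hA, Pool.Agent.Helper52.MW.Pt_im h.cl.2.1 p A hA,
    Pool.Agent.Helper52.MW.Inv_im h.cl.2.2 p A hA⟩
  dim := h.dim
  pol := h.pol.im (fun _ => Nat.cast_nonneg g) p A hA
  stb := Pool.Agent.Helper52.MW.Stb_im h.stb p A hA
  rig := by
    intro T' p' A' hA' c h0 h1 j hj
    obtain ⟨W, q, B, hB, h2⟩ := Pool.Agent.Helper52.MW.im_imR (M := M + 1) (E := lin g) (ι := Fin r) p A hA p' A' hA'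
    have h3 := Pool.Agent.Helper52.MW.sig_predR (fun S (t : MSys S (M + 1) (lin g) (Fin r)) R' =>
      num t R' hj c = num s R hj c) (h2 s R)
    have h4 := h3.mpr (h.rig W q B hB c h0 h1 j hj)
    have h5 := h.rig T p A hA c h0 h1 j hj
    rw [h5]
    exact h4

/-- the exponents of the prefixes are monotone -/
theorem tot_mono' [Finite ι] (s : MSys S N E ι) (R : Rsl S) {c c' : ℝ} (h : c ≤ c') : tot s R c ≤ tot s R c' := by
  rw [Pool.Agent.Helper84.SEL.tot_eq, Pool.Agent.Helper84.SEL.tot_eq]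
  exact Pool.Agent.Helper84.KR.An_mono s R N h

theorem tot_num [Finite ι] (s : MSys S N E ι) (R : Rsl S) (c : ℝ) : tot s R c = num s R le_rfl c :=
  (Pool.Agent.Helper84.SEL.tot_eq s R c).trans (Pool.Agent.Helper84.SEL.num_eq s R le_rfl c).symm

theorem mul_dvd {b x : ℝ} (hb : 0 < b) : b * (x / b) = x := by field_simp

/-- rigid total exponents -/
theorem tot_rig {C : MCl (M + 1)} {v g r e0 : ℕ} {b0 : ℝ} {s : MSys S (M + 1) (lin g) (Fin r)} {R : Rsl S}
    (h : BK C v g r e0 b0 S s R) (p : Pj T S) (A : ∀ k, (T.F k).Ω → Prop) (hA : 0 < ul (T.pr A)) {c : ℝ} (h0 : 0 ≤ c)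
    (h1 : c < b0) : tot (s.im p A hA) R c = tot s R c :=
  (tot_num (s.im p A hA) R c).trans ((h.rig T p A hA c h0 h1 (M + 1) le_rfl).trans (tot_num s R c).symm)

/-- **[DEFX]**: the deficit at the level `b`, if the total exponent of a window `β' > β` is less than `b` -/
theorem defx (hT : TRNX M) {A : MCl (M + 1)} {C : ℕ → MCl (M + 1)} {v : ℕ} (hc : Ctx M A C v) {m g r e0 : ℕ}
    {b1 ρ d ε : ℝ} {s : MSys S (M + 1) (lin g) (Fin r)} {R : Rsl S} (hs : BK (C m) v g r e0 b1 S s R)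
    (hTop : Top ρ d ε s.Q) {b β β' : ℝ} (hb1 : b ≤ 1) (hβ : 0 ≤ β) (hβd : β ≤ d) (hββ : β < β')
    (hβ1 : β' < b1) (hβb : β' ≤ b) (htot : tot s R β' < b) (T : Sp) (q : Pj T S) (B : ∀ k, (T.F k).Ω → Prop)
    (hB : 0 < ul (T.pr B)) : H ((s.Q.im q B).dg b) ≤ (M + 1) * b - ρ * β + ε := by
  have hb : 0 < b := by linarith
  have hs' := bk_im (hc.ok.im m) hs q B hB
  have htot' : tot (s.im q B hB) R β' < b := (tot_rig hs q B hB (by linarith) hβ1).trans_lt htot
  have h1 := hT A C v hc m g r e0 b1 (Sp.im q B) (s.im q B hB) R hs' b hb hb1 (β' / b)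
    (div_pos (by linarith) hb) ((div_le_one hb).mpr hβb) (by
      intro x hx0 hx1
      rw [lt_div_iff₀ hb, mul_comm] at hx1
      exact ⟨by linarith, (tot_mono' (s.im q B hB) R hx1.le).trans_lt htot'⟩)
  have h2 := h1.2.1 (β / b) (div_nonneg hβ hb.le) (div_lt_div_of_pos_right hββ hb) M (Nat.le_succ M)
  have hbβ : b * (β / b) = β := mul_dvd hb
  rw [hbβ] at h2
  have h2' : num (s.im q B hB) R (Nat.le_succ M) β ≤
      b * num ((s.im q B hB).trn b hb hb1) R (Nat.le_succ M) (β / b) := by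
    rw [h2]
    exact (mul_dvd hb).ge
  have h3 : h (((s.im q B hB).Q.co (Fin.last M)).dg β) (((s.im q B hB).Q.co (Fin.last M)).dg 0 ⊔
      (oth (s.im q B hB).Q (Fin.last M)).dg 1) ≤ (1 - ρ) * (β - 0) + ε := hTop T q B hB 0 β le_rfl hβ hβd
  have h4 := def_one (s := s.im q B hB) (R := R) hc.st hs'.cl.2.1 hb hb1 hβ (by linarith) h2' h3
  have h5 : H ((s.Q.im q B).dg b) ≤ M * b + (b - β) + ((1 - ρ) * (β - 0) + ε) := h4
  linarith

end

end Pool.Agent.Helper60.LIM
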