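import Pool.Agent.Helper63.SCN.Dg
import Pool.Agent.Helper26.OUT.Wl

/-! DIAGONALS of pairs: deficits at the levels, dimensions of the leaves, degrees of the charts. -/

set_option autoImplicit false

namespace Pool.Agent.Helper60.LIM

open Finset Filter Topology Pool.Agent.Helper69.RK Pool.Agent.Helper31.EC Pool.Agent.Helper31.EC.Sp
open Pool.Agent.Helper40.EL Pool.Agent.Helper89.LX Pool.Agent.Helper84.MT Pool.Agent.Helper49.MD
open Pool.Agent.Helper63.SCN Pool.Agent.Helper26.OUT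
open Pool.Agent.Helper47.FN (KR lftR obR)

noncomputable section

variable {S T : Sp} {N M : ℕ} {E : ℕ → ℕ} {ι : Type}

/-! ### the number of digits -/

/-- the number of digits of the level `b`, finite -/
def dgF (F : FSp) (b : ℝ) (Q : F.Ω → Fin N → ℝ) : ℝ := h (fc (Setoid.ker fun ω => cell (dlF F b) (Q ω)) : FL F) ⊥ / F.n

theorem dgF_rt (Q : S.VV N) (b : ℝ) : (fun k => dgF (S.F k) b (Q.v k)) = S.rt (Q.bdd b).toInf.1 (Inf.bot (S := S)).1 := by
  funext k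
  exact h_rpI (Q.bdd b).toInf (Inf.bot (S := S)) k

theorem dgF_UB (Q : S.VV N) (b : ℝ) : UB (fun k => dgF (S.F k) b (Q.v k)) := by
  rw [dgF_rt]
  exact UB_rt _ _

theorem H_dgF (Q : S.VV N) (b : ℝ) : H (Q.dg b) = ul (fun k => dgF (S.F k) b (Q.v k)) := by
  have e2 : (cl (Inf.bot : S.Inf)) = ⊥ := cl_bot
  rw [dgF_rt, ← h_cl, e2, h_bot]
  unfold VV.dg
  rw [io_eq (Q.bdd b)]

variable {K : FK}

/-- the deficit as an approximate predicate -/
def dfA (π : PtK K N) (b c : ℝ) : AP K := evA (fun F x => dgF F b (π.q F x)) c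

theorem dg_congr {π : PtK K N} {x : K.Ob S} {y : S.VV N} (h : π.Of x y) (b : ℝ) (p : Pj T S)
    (A : ∀ k, (T.F k).Ω → Prop) : (fun k => dgF ((Sp.im p A).F k) b ((y.im p A).v k)) =ᶠ[UF]
      fun k => dgF ((Sp.im p A).F k) b (π.q ((Sp.im p A).F k) (K.imo x p A k)) := by
  filter_upwards [h.im p A] with k hk
  rw [hk]

theorem dfA_of {π : PtK K N} {x : K.Ob S} {y : S.VV N} (h : π.Of x y) {b c ε : ℝ} (hε : 0 ≤ ε)
    (ht : ∀ (T : Sp) (p : Pj T S) (A : ∀ k, (T.F k).Ω → Prop), 0 < ul (T.pr A) → H ((y.im p A).dg b) ≤ c + ε) :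
    (dfA π b c).pd ε S x := by
  refine evA_of hε fun T p A hA => ?_
  have h1 := dg_congr h b p A
  refine ⟨UB_ev (dgF_UB (y.im p A) b) h1, ?_⟩
  rw [← ul_congr h1, ← H_dgF]
  exact ht T p A hA

theorem dfA_to {π : PtK K N} {x : K.Ob S} {y : S.VV N} (h : π.Of x y) {b c : ℝ}
    (ht : (dfA π b c).pd 0 S x) (p : Pj T S) (A : ∀ k, (T.F k).Ω → Prop) (hA : 0 < ul (T.pr A)) :
    H ((y.im p A).dg b) ≤ c := by
  have h1 := dg_congr h b p A
  rw [H_dgF, ul_congr h1]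
  exact evA_to ht p A hA (UB_ev (dgF_UB (y.im p A) b) h1)

/-! ### dimensions and degrees -/

/-- the dimensions of the leaves -/
def dmA (M : ℕ) (ι : Type) (e0 : ℕ) : AP (KR M ι) where
  P := fun F x _ => ∀ i, ((x : FMs F.Ω M ι × Setoid F.Ω).1.lf i).e ≤ e0
  mono := fun _ _ _ _ _ h => h

theorem dmA_of [Finite ι] {s : MSys S M E ι} {x : (KR M ι).Ob S}
    (hG : Giv s (fun k => (x k : FMs (S.F k).Ω M ι × Setoid (S.F k).Ω).1)) {e0 : ℕ} (h : ∀ i, (s.lf i).e ≤ e0) :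
    (dmA M ι e0).pd 0 S x := by
  intro δ _
  filter_upwards [eventually_all.2 hG.2] with k hk i
  have h1 := hk i
  show ((x k : FMs (S.F k).Ω M ι × Setoid (S.F k).Ω).1.lf i).e ≤ e0
  rw [← h1]
  exact h i

theorem dmA_to {s : MSys S M E ι} {x : (KR M ι).Ob S}
    (hG : Giv s (fun k => (x k : FMs (S.F k).Ω M ι × Setoid (S.F k).Ω).1)) {e0 : ℕ}
    (h : (dmA M ι e0).pd 0 S x) (i : ι) : (s.lf i).e ≤ e0 := by
  obtain ⟨k, h1, h2⟩ := ((h 1 one_pos).and (hG.2 i)).exists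
  have h3 : ((x k : FMs (S.F k).Ω M ι × Setoid (S.F k).Ω).1.lf i).e ≤ e0 := h1 i
  rw [← h2] at h3
  exact h3

/-- the degrees of the charts -/
def wdR (w : Fin M → ℝ) (ι : Type) : AP (KR M ι) where
  P := fun F x _ => ∀ i, ∀ ω, F.μ ω ≠ 0 → ∀ j, Wf (w j) (fun y => ((x : FMs F.Ω M ι × Setoid F.Ω).1.lf i).F ω y j)
  mono := fun _ _ _ _ _ h => h

theorem wdR_of [Finite ι] {w : Fin M → ℝ} (hw : ∀ j, 0 ≤ w j) {s : MSys S M E ι} {x : (KR M ι).Ob S}
    (hG : Giv s (fun k => (x k : FMs (S.F k).Ω M ι × Setoid (S.F k).Ω).1)) (h : WDs w s) :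
    (wdR w ι).pd 0 S x := by
  intro δ _
  filter_upwards [eventually_all.2 hG.2, eventually_all.2 ((WDs_iff hw).1 h)] with k hk h1 i ω hω j
  have h2 := h1 i ω hω j
  have h3 : Wf (w j) (fun y => (lob (s.lf i) k).F ω y j) := h2
  rw [hk i] at h3
  exact h3

theorem wdR_to {w : Fin M → ℝ} (hw : ∀ j, 0 ≤ w j) {s : MSys S M E ι} {x : (KR M ι).Ob S}
    (hG : Giv s (fun k => (x k : FMs (S.F k).Ω M ι × Setoid (S.F k).Ω).1)) (h : (wdR w ι).pd 0 S x) : WDs w s := by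
  refine (WDs_iff hw).2 fun i => ?_
  filter_upwards [h 1 one_pos, hG.2 i] with k h1 h2 ω hω j
  have h3 : Wf (w j) (fun y => ((x k : FMs (S.F k).Ω M ι × Setoid (S.F k).Ω).1.lf i).F ω y j) := h1 i ω hω j
  rw [← h2] at h3
  exact h3

end

end Pool.Agent.Helper60.LIM
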