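import Pool.Agent.Helper60.LIM.Dfx
import Pool.Agent.Helper60.LIM.Dg
import Pool.Agent.Helper29.MX.Bas

/-! [STBL]: limits of rigid stable pairs with TOP (up to errors which tend to zero) are stable. -/

set_option autoImplicit false

namespace Pool.Agent.Helper60.LIM

open Finset Filter Topology Matrix Pool.Agent.Helper69.RK Pool.Agent.Helper31.EC Pool.Agent.Helper31.EC.Sp
open Pool.Agent.Helper40.EL Pool.Agent.Helper89.LX Pool.Agent.Helper84.MT
open Pool.Agent.Helper49.MD Pool.Agent.Helper36.AM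
open Pool.Agent.Helper29.MX
open Pool.Agent.Helper47.FN (KR lftR obR)
open Pool.Agent.Helper26.OUT (WDs)
open Pool.Agent.Helper63.SCN (ptR TopEd TopEd_zero top_diag PtK)
open Pool.Agent.Helper94.SEL (tot num lmd BK Top Ctx TRNX)
open Pool.Agent.Helper77.TPX (oth TopE)

noncomputable section

variable {S T : Sp} {N M : ℕ}

/-- the digits between two levels -/
theorem H_dg_le (Q : S.VV N) {a b : ℝ} (hab : a ≤ b) : H (Q.dg b) ≤ H (Q.dg a) + N * (b - a) := by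
  have h1 := h_chain (Q.dg a) (Q.dg b) ⊥
  rw [h_bot, h_bot, sup_bot_eq, sup_eq_right.mpr (Q.dg_mono hab)] at h1
  have h2 := Q.h_dg_dg hab
  linarith

/-- the window of the level `b` -/
def bt (La b1 d b : ℝ) : ℝ := min (min (b / (2 * La)) d) (b1 / 2)

theorem bt_pos {La b1 d b : ℝ} (hLa : 1 ≤ La) (h1 : 0 < b1) (hd : 0 < d) (hb : 0 < b) : 0 < bt La b1 d b :=
  lt_min (lt_min (div_pos hb (by linarith)) hd) (by linarith)

/-- the deficit of one stage at the level `b` -/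
theorem def_stage (hT : TRNX M) {A : MCl (M + 1)} {C : ℕ → MCl (M + 1)} {v : ℕ} (hc : Ctx M A C v) {m g r e0 : ℕ}
    {b1 La ρ d ε : ℝ} (hb1 : 0 < b1) (hLa : 1 ≤ La) (hd : 0 < d)
    {s : MSys S (M + 1) (lin g) (Fin r)} {R : Rsl S} (hs : BK (C m) v g r e0 b1 S s R)
    (htot : ∀ b, 0 ≤ b → b < b1 → tot s R b ≤ La * b + ε) (hTop : Top ρ d ε s.Q) {b : ℝ} (hb0 : 0 < b) (hb : b ≤ 1)
    (T : Sp) (q : Pj T S) (B : ∀ k, (T.F k).Ω → Prop) (hB : 0 < ul (T.pr B)) :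
    H ((s.Q.im q B).dg b) ≤ ((M + 1) * b - ρ * bt La b1 d b) + (if 4 * ε < b then ε else ρ * bt La b1 d b) := by
  split_ifs with hε
  · have h0 := bt_pos hLa hb1 hd hb0
    have h1 : bt La b1 d b ≤ d := (min_le_left _ _).trans (min_le_right _ _)
    have h2 : bt La b1 d b ≤ b1 / 2 := min_le_right _ _
    have h3 : bt La b1 d b ≤ b / (2 * La) := (min_le_left _ _).trans (min_le_left _ _)
    have h4 : La * bt La b1 d b ≤ b / 2 := by
      rw [le_div_iff₀ (by linarith)] at h3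
      linarith
    have h5 : bt La b1 d b ≤ b / 2 := by nlinarith
    have h6 := htot (3 / 2 * bt La b1 d b) (by linarith) (by linarith)
    exact defx hT hc hs hTop hb h0.le h1 (β' := 3 / 2 * bt La b1 d b) (by linarith) (by linarith) (by linarith)
      (by nlinarith) T q B hB
  · have h1 := (s.Q.im q B).H_dg_le hb0.le
    push_cast at h1
    linarith

/-- NSL with a linear bound of the total exponents (helper43) -/
def NSLB' (N : ℕ) : Prop := ∀ (A C : MCl N), OkA N A → Ocl N A C → (∀ m, m < N → STu m) → ∀ v : ℕ,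
  STO N (Cv A (v + 1)) → ∀ (g r : ℕ) (l La : ℝ), 0 < l → ∀ ε : ℕ → ℝ, (∀ j, 0 ≤ ε j) → Tendsto ε atTop (𝓝 0) →
    DiagTo (fun j => lftR fun S (s : MSys S N (lin g) (Fin r)) R => CvK C v S g r s R ∧
        AllE (fun _ t R' => ∀ c : ℝ, 0 ≤ c → c < l → (N : ℝ) - volKO t R' c ≤ La * c + ε j) S s R)
      (lftR fun S (s : MSys S N (lin g) (Fin r)) R => CvK C v S g r s R ∧
        ((∀ b : ℝ, 0 < b → b ≤ 1 → Dfc b s) → Stb 0 s R))

/-- **[STBL]** -/
theorem stbl_of (hN : NSLB' (M + 1)) (hT : TRNX M) {A : MCl (M + 1)} {C : ℕ → MCl (M + 1)} {v : ℕ} (hc : Ctx M A C v) (m g r e0 : ℕ)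
    {b1 La ρ d : ℝ} (hb1 : 0 < b1) (hLa : 1 ≤ La) (hρ : 0 < ρ) (hd : 0 < d) {ε : ℕ → ℝ} (h0 : ∀ j, 0 ≤ ε j)
    (hε : Tendsto ε atTop (𝓝 0)) :
    DiagTo (fun j => lftR fun S (s : MSys S (M + 1) (lin g) (Fin r)) R => BK (C m) v g r e0 b1 S s R ∧
        (∀ b, 0 ≤ b → b < b1 → tot s R b ≤ La * b + ε j) ∧ Top ρ d (ε j) s.Q)
      (lftR fun S (s : MSys S (M + 1) (lin g) (Fin r)) R => CvK (C m) v S g r s R ∧ (∀ i, (s.lf i).e ≤ e0) ∧
        WDs (fun _ => (g : ℝ)) s ∧ Stb 0 s R ∧ Top ρ d 0 s.Q) := by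
  classical
  have hw : ∀ j : Fin (M + 1), (0 : ℝ) ≤ (fun _ : Fin (M + 1) => (g : ℝ)) j := fun _ => Nat.cast_nonneg g
  set π := ptR (M + 1) (Fin r) with hπ
  set rr : ℕ → ℚ := fun q => (Encodable.decode (α := ℚ) q).getD 0 with hrr
  set er : ℕ → ℕ → ℝ := fun q j => if 4 * ε j < (rr q : ℝ) then ε j else ρ * bt La b1 d (rr q) with her
  have d1 := hN A (C m) hc.ok.oA (hc.ok.ocl m) hc.st v hc.sto g r b1 La hb1 ε h0 hε
  have d2 := top_diag π (Fin.last M) ρ d h0 hε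
  have d3 : ∀ q : ℕ, DiagTo (fun j (S : Sp) (x : (KR (M + 1) (Fin r)).Ob S) => (0 : ℝ) < rr q → (rr q : ℝ) ≤ 1 →
      (dfA π (rr q) ((M + 1) * (rr q : ℝ) - ρ * bt La b1 d (rr q))).pd (er q j) S x)
      (fun (S : Sp) (x : (KR (M + 1) (Fin r)).Ob S) => (0 : ℝ) < rr q → (rr q : ℝ) ≤ 1 →
      (dfA π (rr q) ((M + 1) * (rr q : ℝ) - ρ * bt La b1 d (rr q))).pd 0 S x) := by
    intro q
    by_cases hq : (0 : ℝ) < rr q ∧ (rr q : ℝ) ≤ 1
    · have h1 : Tendsto (er q) atTop (𝓝 0) := by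
        refine hε.congr' ?_
        filter_upwards [hε.eventually (gt_mem_nhds (by linarith [hq.1] : (0 : ℝ) < (rr q : ℝ) / 4))] with j hj
        rw [her]
        show ε j = if 4 * ε j < (rr q : ℝ) then ε j else ρ * bt La b1 d (rr q)
        rw [if_pos (by linarith)]
      exact ((dfA π (rr q) ((M + 1) * (rr q : ℝ) - ρ * bt La b1 d (rr q))).diagTo h1).mono
        (fun j S x hx => hx hq.1 hq.2) fun S x hx _ _ => hx
    · intro S x _
      exact ⟨fun _ _ _ => True, fun _ _ => Eventually.of_forall fun _ => trivial, fun J hd a b => absurd ⟨a, b⟩ hq⟩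
  have d4 := (dmA (M + 1) (Fin r) e0).diagTo (ε := fun _ => (0 : ℝ)) (tendsto_const_nhds (x := (0 : ℝ)))
  have d5 := (wdR (fun _ : Fin (M + 1) => (g : ℝ)) (Fin r)).diagTo (ε := fun _ => (0 : ℝ))
    (tendsto_const_nhds (x := (0 : ℝ)))
  refine (((d1.and d2).and (DiagTo.all d3)).and (d4.and d5)).mono ?_ ?_
  · rintro j S x ⟨s, R, hG, hR, hs, htot, hTop⟩
    have hOf : π.Of x s.Q := hG.1
    have hAE : AllE (fun _ t R' => ∀ c : ℝ, 0 ≤ c → c < b1 → ((M + 1 : ℕ) : ℝ) - volKO t R' c ≤ La * c + ε j) S s R := by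
      intro T p B hB c hc0 hc1
      have e1 : ((M + 1 : ℕ) : ℝ) - volKO (s.im p B hB) R c = tot s R c := tot_rig hs p B hB hc0 hc1
      exact e1.trans_le (htot c hc0 hc1)
    refine ⟨⟨⟨⟨s, R, hG, hR, hs.cl, hAE⟩, s.Q, hOf, hTop⟩, fun q hq0 hq1 => ?_⟩, dmA_of hG hs.dim,
      wdR_of hw hG hs.pol⟩
    refine dfA_of hOf ?_ fun T p B hB => def_stage hT hc hb1 hLa hd hs htot hTop hq0 hq1 T p B hB
    rw [her]
    show 0 ≤ if 4 * ε j < (rr q : ℝ) then ε j else ρ * bt La b1 d (rr q)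
    split_ifs
    · exact h0 j
    · exact mul_nonneg hρ.le (bt_pos hLa hb1 hd hq0).le
  · rintro S x ⟨⟨⟨⟨s, R, hG, hR, hcl, hst⟩, hx2⟩, hx3⟩, hx4, hx5⟩
    have hOf : π.Of x s.Q := hG.1
    have hTop : TopEd s.Q (Fin.last M) ρ d 0 := TopEd_zero.2 (hx2 s.Q hOf)
    refine ⟨s, R, hG, hR, hcl, dmA_to hG hx4, wdR_to hw hG hx5, hst ?_, hTop⟩
    intro b hb0 hb1' T p B hB
    obtain ⟨b', hb'0, hb'1⟩ := exists_rat_btwn hb0
    have h2 := hx3 (Encodable.encode b')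
    simp only [hrr, Encodable.encodek, Option.getD_some] at h2
    have h3 := dfA_to hOf (h2 hb'0 (hb'1.le.trans hb1')) p B hB
    have h4 := H_dg_le (s.Q.im p B) hb'1.le
    have h5 := mul_pos hρ (bt_pos hLa hb1 hd hb'0)
    show H ((s.Q.im p B).dg b) < ((M + 1 : ℕ) : ℝ) * b
    push_cast at h4 ⊢
    linarith

end

end Pool.Agent.Helper60.LIM
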