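import Pool.Agent.Helper77.TPX.Stp
import Pool.Agent.Helper99.MX.Sws
import Pool.Agent.Helper71.VIS.Trk
import Pool.Agent.Helper84.SEL.Numx
import Pool.Agent.Helper26.MT.Zt
import Pool.Agent.Helper89.RAD.Kd

/-! THE DEFICIT AT ALL LEVELS of a pair with TOP: at the level `b` the truncation has the exponents of the window, so the
digits of the last coordinate up to the depth `β` of a window whose total exponent is less than `b` are almost
independent of the finer digits of the other coordinates. -/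

set_option autoImplicit false

namespace Pool.Agent.Helper60.LIM

open Finset Filter Topology Matrix Pool.Agent.Helper69.RK Pool.Agent.Helper31.EC Pool.Agent.Helper31.EC.Sp
open Pool.Agent.Helper40.EL Pool.Agent.Helper89.LX Pool.Agent.Helper3.LF Pool.Agent.Helper84.MT
open Pool.Agent.Helper52.SL (untF tnF untL tnL nul_trn cellv_chg untF_leak tnF_leak)
open Pool.Agent.Helper7.RD (volC volCO volC_eq volC_le_of volCO_le)
open Pool.Agent.Helper87.NSL (cndR KnS)
open Pool.Agent.Helper29.MX Pool.Agent.Helper71.VIS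
open Pool.Agent.Helper77.TPX (oth topx_slk)
open Pool.Agent.Helper36.AM (STu)

noncomputable section

variable {S : Sp} {m M : ℕ} {ι : Type}

/-- the number of digits over a label of the truncated space -/
theorem H_dg_untL (P : S.VV m) {r : ℝ} {h0 : 0 < r} (l : Lab (S.chg S.tr r h0)) (c : ℝ) :
    H (up1 (untL l) (P.dg (r * c))) = r * H (up1 l ((P.chg S.tr r h0).dg c)) := by
  have e1 : P.dg (r * c) = cl ((P.bdd (r * c)).toInf) := by
    unfold VV.dg
    exact io_eq _
  have e2 : (P.chg S.tr r h0).dg c = cl (((P.chg S.tr r h0).bdd c).toInf) := by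
    unfold VV.dg
    exact io_eq _
  have hU : UB (fun k => h ((l k).p.map (rpI ((P.chg S.tr r h0).bdd c).toInf k)) (l k).v /
      ((S.chg S.tr r h0).F k).n) := by
    refine UB.sandwich (UB_const 0) (rpI_Bd ((P.chg S.tr r h0).bdd c).toInf) ?_ ?_
    · exact Eventually.of_forall fun k => div_nonneg (h_nonneg _ _) ((S.chg S.tr r h0).F k).pos.le
    · refine Eventually.of_forall fun k => div_le_div_of_nonneg_right ?_ ((S.chg S.tr r h0).F k).pos.le
      rw [← (l k).p.H_map]
      exact h_le_H _ _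
  rw [e1, e2, H_up1_cl, H_up1_cl, ← ul_const_mul r hU]
  congr 1
  funext k
  have e3 : (P.chg S.tr r h0).cellv c k = P.cellv (r * c) k := cellv_chg P r h0 c k
  have e4 : h ((l k).p.map (rpI ((P.chg S.tr r h0).bdd c).toInf k)) (l k).v =
      h ((l k).p.map (fc (F := (S.F k).chg ⊤ r h0) (Setoid.ker (P.cellv (r * c) k)))) (l k).v :=
    congrArg (fun f => h ((l k).p.map (fc (F := (S.F k).chg ⊤ r h0) (Setoid.ker f))) (l k).v) e3
  have e5 : h (((untL l) k).p.map (rpI (P.bdd (r * c)).toInf k)) ((untL l) k).v =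
      h ((l k).p.map (fc (F := (S.F k).chg ⊤ r h0) (Setoid.ker (P.cellv (r * c) k)))) (l k).v :=
    untF_h r h0 (l k) (Setoid.ker (P.cellv (r * c) k))
  rw [e4, e5]
  show _ / (S.F k).n = r * (_ / (r * (S.F k).n))
  have := (S.F k).pos.ne'
  field_simp

theorem oth_pfx (Q : S.VV (M + 1)) (r : ℝ) : (oth Q (Fin.last M)).dg r = (pfx Q (Nat.le_succ M)).dg r := by
  apply le_antisymm
  · apply VV.dg_le_dg _ _ _ _ (fun _ _ => True) Typ_true (fun _ => 1) (S.Sub_const zero_le_one)
    refine Eventually.of_forall fun k ω ω' _ _ _ _ _ g i => ?_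
    rw [one_mul]
    show |(if i = Fin.last M then 0 else Q.v k ω i) - (if i = Fin.last M then 0 else Q.v k ω' i)| ≤ S.dl r k
    by_cases h3 : i = Fin.last M
    · rw [if_pos h3, if_pos h3, sub_zero, abs_zero]
      exact (S.dl_pos r k).le
    · rw [if_neg h3, if_neg h3]
      have h4 : i.val < M := by
        have h5 := i.isLt
        have h6 : i.val ≠ M := fun e => h3 (Fin.ext e)
        omega
      exact g ⟨i.val, h4⟩
  · apply VV.dg_le_dg _ _ _ _ (fun _ _ => True) Typ_true (fun _ => 1) (S.Sub_const zero_le_one)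
    refine Eventually.of_forall fun k ω ω' _ _ _ _ _ g i => ?_
    rw [one_mul]
    have h1 := g (Fin.castLE (Nat.le_succ M) i)
    have h2 : |(if Fin.castLE (Nat.le_succ M) i = Fin.last M then 0 else Q.v k ω (Fin.castLE (Nat.le_succ M) i)) -
      (if Fin.castLE (Nat.le_succ M) i = Fin.last M then 0 else Q.v k ω' (Fin.castLE (Nat.le_succ M) i))| ≤
        S.dl r k := h1
    have h3 : Fin.castLE (Nat.le_succ M) i ≠ Fin.last M := fun e => by
      have h4 : i.val = M := congrArg Fin.val e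
      have h5 := i.isLt
      omega
    rw [if_neg h3, if_neg h3] at h2
    exact h2

/-- the digits of the point are the digits of the prefix and of the last coordinate -/
theorem dg_split (Q : S.VV (M + 1)) (r : ℝ) : Q.dg r ≤ (oth Q (Fin.last M)).dg r ⊔ (Q.co (Fin.last M)).dg r := by
  apply VV.dg_le_dg2 _ _ _ _ _ _ (fun _ _ => True) Typ_true (fun _ => 1) (S.Sub_const zero_le_one)
  refine Eventually.of_forall fun k ω ω' _ _ _ _ _ g g' i => ?_
  rw [one_mul]
  by_cases h3 : i = Fin.last M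
  · rw [h3]
    exact g' 0
  · have h4 : |(if i = Fin.last M then 0 else Q.v k ω i) - (if i = Fin.last M then 0 else Q.v k ω' i)| ≤
      S.dl r k := g i
    rw [if_neg h3, if_neg h3] at h4
    exact h4

/-- a literal label knows the digits of its cells -/
theorem H_ofZ_cell (y : S.VV m) (c : ℝ) : H (up1 (Lab.ofZ fun k => Setoid.ker (y.cellv c k)) (y.dg c)) = 0 := by
  have e1 : y.dg c = cl ((y.bdd c).toInf) := by
    unfold VV.dg
    exact io_eq _
  rw [e1, H_up1_cl]
  refine (ul_congr (Eventually.of_forall fun k => ?_)).trans (ul_const (0 : ℝ))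
  have h1 : h (((Lab.ofZ fun k => Setoid.ker (y.cellv c k)) k).p.map (rpI (y.bdd c).toInf k))
      ((Lab.ofZ fun k => Setoid.ker (y.cellv c k)) k).v = 0 := h_zero le_rfl
  rw [h1, zero_div]

section
variable [Finite ι] {g : ℕ} {s : MSys S (M + 1) (lin g) ι} {R : Rsl S}

/-- THE STEP, one law: the truncation at the level `b` has the exponent of the window `β` for the first `M`
coordinates -/
theorem def_one (hst : ∀ m < M + 1, STu m) (hR : Pt s R) {b β : ℝ} (hb : 0 < b) (hb1 : b ≤ 1) (hβ : 0 ≤ β)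
    (hβb : β < b) (hnum : Pool.Agent.Helper94.SEL.num s R (Nat.le_succ M) β ≤
      b * Pool.Agent.Helper94.SEL.num (s.trn b hb hb1) R (Nat.le_succ M) (β / b)) {τ : ℝ}
    (hT : h ((s.Q.co (Fin.last M)).dg β) ((s.Q.co (Fin.last M)).dg 0 ⊔ (oth s.Q (Fin.last M)).dg 1) ≤ τ) :
    H (s.Q.dg b) ≤ M * b + (b - β) + τ := by
  apply le_of_forall_pos_le_add
  intro δ hδ
  have hM : M ≤ M + 1 := Nat.le_succ M
  have hbβ : b * (β / b) = β := by field_simp
  -- an optimal form of the truncation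
  set V : ℝ := volP (s.trn b hb hb1) R (β / b) hM with hV
  have h1 : volCO (KZ (S := S.chg S.tr b hb) R) (cndR (s.trn b hb hb1) R (β / b))
      (pfx (s.trn b hb hb1).Q hM) < V + δ := by
    rw [hV]
    unfold volP
    linarith
  obtain ⟨D₀, hD₀⟩ := Pool.Agent.Helper84.KR.volCO_lt h1
  set D : ℕ := max D₀ 1 with hD
  have hD1 : 1 ≤ D := le_max_right _ _
  have h2 := hD₀ D (le_max_left _ _)
  obtain ⟨y, hy⟩ := (gaq (pfx (s.trn b hb hb1).Q hM) D).exists_optfK (KZ (S := S.chg S.tr b hb) R)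
    (cndR (s.trn b hb hb1) R (β / b))
  rw [volC_eq hy] at h2
  have h3 := Pool.Agent.Helper14.MC.cnt_vol (pfx (s.trn b hb hb1).Q hM) hD1 y hy.1.1
  have h4 : H (up1 (untL (lb y)) ((pfx s.Q hM).dg b)) = b * H (up1 (lb y) (((pfx s.Q hM).chg S.tr b hb).dg 1)) := by
    have h5 := H_dg_untL (pfx s.Q hM) (lb y) 1
    rwa [mul_one] at h5
  have h5 : H (up1 (untL (lb y)) ((pfx s.Q hM).dg b)) ≤ b * (V + δ) := by
    rw [h4]
    exact mul_le_mul_of_nonneg_left (h3.trans h2.le) hb.le
  -- the label of the window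
  set Z : ∀ k, Setoid (S.F k).Ω :=
    fun k => Setoid.ker ((Pool.Agent.Helper84.KR.crd s.Q (Fin.last M)).cellv β k) with hZ
  have hdm : (untL (lb y)).DMf (cndR s R β) := by
    have h6 := Gau.Adf.dm (gaq (pfx (s.trn b hb hb1).Q hM) D) hy.1.1
    rw [cndR_trn, hbβ] at h6
    rw [cndR_fcs]
    exact untL_DMf.2 h6
  have hkz : (KZ R).ev (untL (lb y)) := untL_kz.2 hy.1.2
  have hK : KLb s R β ((untL (lb y)).join (Lab.ofZ Z)) :=
    ⟨hdm.join (Pool.Agent.Helper84.KR.crd_dm hR (Fin.last M) hβ (hβb.le.trans hb1)),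
      LC.ev.join hkz (Pool.Agent.Helper84.KR.crd_kz hR (Fin.last M) β)⟩
  have h7 := Pool.Agent.Helper99.MX.pfx_full hst hR hβ (lt_of_lt_of_le hβb hb1) (Nat.lt_succ_self M) hK
  -- the digits of the last coordinate
  have ec : Pool.Agent.Helper84.KR.crd s.Q (Fin.last M) = s.Q.co (Fin.last M) :=
    Pool.Agent.Helper81.CPY.VV_ext rfl
  have h8 : H (up1 ((untL (lb y)).join (Lab.ofZ Z)) ((s.Q.co (Fin.last M)).dg β)) = 0 := by
    apply le_antisymm _ (H_nonneg _)
    refine (Pool.Agent.Helper89.RAD.H_join_right _ _ _).trans (le_of_eq ?_)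
    have h9 := H_ofZ_cell (s.Q.co (Fin.last M)) β
    rw [hZ, ec]
    exact h9
  set P1 := (oth s.Q (Fin.last M)).dg 1 with hP1
  set Pb := (oth s.Q (Fin.last M)).dg b with hPb
  have e1 : P1 = (pfx s.Q hM).dg 1 := oth_pfx s.Q 1
  have e2 : Pb = (pfx s.Q hM).dg b := oth_pfx s.Q b
  have k8 : Pb ≤ P1 := (oth s.Q (Fin.last M)).dg_mono hb1
  have kn : h P1 Pb ≤ M * (1 - b) := by
    rw [e1, e2]
    exact (pfx s.Q hM).h_dg_dg hb1
  have k3 : H (up1 ((untL (lb y)).join (Lab.ofZ Z)) Pb) ≤ b * (V + δ) := by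
    rw [e2]
    exact (Pool.Agent.Helper89.RAD.H_join_left _ _ _).trans h5
  have k2 : volP s R β hM ≤ H (up1 ((untL (lb y)).join (Lab.ofZ Z)) P1) := by
    rw [e1]
    exact h7
  have key := topx_slk ((s.Q.co (Fin.last M)).dg β) ((s.Q.co (Fin.last M)).dg 0) Pb P1
    ((s.Q.co (Fin.last M)).dg β) ((s.Q.co (Fin.last M)).dg 0) ((untL (lb y)).join (Lab.ofZ Z)) h8
    ((s.Q.co (Fin.last M)).dg_mono hβ) k8 kn k2 k3 (le_sup_left.trans le_sup_left) le_sup_left hT
  rw [(s.Q.co (Fin.last M)).dg_nonpos le_rfl, bot_sup_eq] at key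
  -- numbers
  have hn1 : Pool.Agent.Helper94.SEL.num s R (Nat.le_succ M) β = M - volP s R β hM := rfl
  have hn2 : Pool.Agent.Helper94.SEL.num (s.trn b hb hb1) R (Nat.le_succ M) (β / b) = M - V := rfl
  rw [hn1, hn2] at hnum
  have key2 : h ((s.Q.co (Fin.last M)).dg β) Pb ≤ τ + b * δ := by nlinarith
  have k4 : h ((s.Q.co (Fin.last M)).dg b) Pb ≤ (b - β) + (τ + b * δ) := by
    have j1 := h_triangle ((s.Q.co (Fin.last M)).dg b) ((s.Q.co (Fin.last M)).dg β) Pb
    have j2 : h ((s.Q.co (Fin.last M)).dg b) ((s.Q.co (Fin.last M)).dg β ⊔ Pb) ≤ b - β := by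
      refine (h_anti le_sup_left).trans ?_
      have j3 := (s.Q.co (Fin.last M)).h_dg_dg hβb.le
      rw [Nat.cast_one, one_mul] at j3
      exact j3
    linarith
  have k5 : H (s.Q.dg b) ≤ H Pb + h ((s.Q.co (Fin.last M)).dg b) Pb := by
    refine (H_mono (dg_split s.Q b)).trans (le_of_eq ?_)
    have j1 := h_chain Pb ((s.Q.co (Fin.last M)).dg b) ⊥
    rw [h_bot, h_bot, sup_bot_eq] at j1
    exact j1
  have k6 : H Pb ≤ M * b := by
    rw [e2]
    exact (pfx s.Q hM).H_dg_le hb.le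
  have hbδ : b * δ ≤ δ := by nlinarith
  linarith

end

end

end Pool.Agent.Helper60.LIM
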